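import Mathlib

/-!
# Minimum cost of fast contract-signing protocols

We prove `CFP(N) = 4N - 6` for every `N ≥ 2`.

Idea of the lower bound.  For each day `t` let `V t` be the space of real functions on the set of
contracts which factor through the position map `n ↦ P n t`.  For `t ≤ N - 2` the position map is
not constant, so `V t` has dimension at least `2`; the sum of all `V t`, `t ≤ N - 2`, is the whole
space; and the number of envelopes sent on day `t` is at least the dimension of `V t + V (t+1)`.
A telescoping dimension count gives `3 (N - 2)` envelopes on the days `0, …, N - 3`, and the last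
day needs `N` envelopes.
-/

namespace Pool.Agent.Results.MP_6fb3b3_lc.CFPValue

open Finset

/-- `P n d` is the party holding contract `n` on day `d`.  The tuple `P` of permutations is a fast
protocol when contract `n` is with party `n` on the last day `N - 1`. -/
def IsFast {N : ℕ} (P : Fin N → Equiv.Perm (Fin N)) : Prop :=
  ∀ n d : Fin N, (d : ℕ) + 1 = N → P n d = n

/-- The envelopes of the tuple `P`: the triples `(d, i, j)` such that `d` is a day with
`0 ≤ d ≤ N - 2` and some contract `n` is with party `i` on day `d` and with party `j` on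
day `d + 1`. -/
def envelopes {N : ℕ} (P : Fin N → Equiv.Perm (Fin N)) : Finset (Fin N × Fin N × Fin N) :=
  Finset.univ.filter fun x =>
    ∃ e : Fin N, (e : ℕ) = (x.1 : ℕ) + 1 ∧ ∃ n : Fin N, P n x.1 = x.2.1 ∧ P n e = x.2.2

/-- The cost of `P`: its number of envelopes. -/
def cost {N : ℕ} (P : Fin N → Equiv.Perm (Fin N)) : ℕ := (envelopes P).card

/-! ### Linear algebra -/

section LinAlg

variable {ι β : Type*}

/-- Functions on `ι` that factor through `h`. -/
def fac (h : ι → β) : Submodule ℝ (ι → ℝ) := LinearMap.range (LinearMap.funLeft ℝ ℝ h)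

lemma mem_fac {h : ι → β} {f : ι → ℝ} : f ∈ fac h ↔ ∃ g : β → ℝ, f = g ∘ h := by
  constructor
  · rintro ⟨g, rfl⟩
    exact ⟨g, rfl⟩
  · rintro ⟨g, rfl⟩
    exact ⟨g, rfl⟩

lemma finrank_fac_le [Fintype ι] [DecidableEq β] (h : ι → β) :
    Module.finrank ℝ (fac h) ≤ (Finset.univ.image h).card := by
  classical
  let h' : ι → ↥(Finset.univ.image h) :=
    fun i => ⟨h i, Finset.mem_image_of_mem h (Finset.mem_univ i)⟩
  have hle : fac h ≤ fac h' := by
    intro f hf
    rw [mem_fac] at hf ⊢
    obtain ⟨g, rfl⟩ := hf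
    exact ⟨fun s => g s.1, rfl⟩
  calc Module.finrank ℝ (fac h) ≤ Module.finrank ℝ (fac h') := Submodule.finrank_mono hle
    _ ≤ Module.finrank ℝ (↥(Finset.univ.image h) → ℝ) := LinearMap.finrank_range_le _
    _ = (Finset.univ.image h).card := by
        rw [Module.finrank_fintype_fun_eq_card, Fintype.card_coe]

lemma two_le_finrank_fac [Fintype ι] [DecidableEq β] {h : ι → β} {a b : ι} (hab : h a ≠ h b) :
    2 ≤ Module.finrank ℝ (fac h) := by
  have h1 : (fun _ => 1 : ι → ℝ) ∈ fac h := mem_fac.2 ⟨fun _ => 1, rfl⟩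
  have h2 : (fun i => if h i = h a then 1 else 0 : ι → ℝ) ∈ fac h :=
    mem_fac.2 ⟨fun y => if y = h a then 1 else 0, rfl⟩
  have hli : LinearIndependent ℝ
      ![(⟨_, h1⟩ : fac h), (⟨_, h2⟩ : fac h)] := by
    rw [LinearIndependent.pair_iff]
    intro s t hst
    have hst' := congrArg Subtype.val hst
    have ha := congrFun hst' a
    have hb := congrFun hst' b
    simp [hab.symm] at ha hb
    constructor
    · exact hb
    · rw [hb] at ha
      simpa using ha
  have := hli.fintype_card_le_finrank
  simpa using this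

end LinAlg

/-- Telescoping dimension count. -/
lemma telescope {E : Type*} [AddCommGroup E] [Module ℝ E] [FiniteDimensional ℝ E]
    (V : ℕ → Submodule ℝ E) (t : ℕ) :
    Module.finrank ℝ (⨆ s ∈ Finset.range (t + 1), V s : Submodule ℝ E)
      + ∑ d ∈ Finset.range t, Module.finrank ℝ (V d)
      ≤ ∑ d ∈ Finset.range t, Module.finrank ℝ (V d ⊔ V (d + 1) : Submodule ℝ E)
        + Module.finrank ℝ (V 0) := by
  induction t with
  | zero =>
    have : (⨆ s ∈ Finset.range (0 + 1), V s : Submodule ℝ E) = V 0 := by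
      simp
    rw [this]
    simp
  | succ t ih =>
    set U : Submodule ℝ E := ⨆ s ∈ Finset.range (t + 1), V s with hU
    have hU' : (⨆ s ∈ Finset.range (t + 1 + 1), V s : Submodule ℝ E) = U ⊔ V (t + 1) := by
      rw [Finset.range_add_one, Finset.iSup_insert, sup_comm]
    have hVU : V t ≤ U := by
      rw [hU]
      exact le_iSup₂_of_le t (Finset.self_mem_range_succ t) le_rfl
    have e1 := Submodule.finrank_sup_add_finrank_inf_eq U (V (t + 1))
    have e2 := Submodule.finrank_sup_add_finrank_inf_eq (V t) (V (t + 1))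
    have e3 : Module.finrank ℝ (V t ⊓ V (t + 1) : Submodule ℝ E)
        ≤ Module.finrank ℝ (U ⊓ V (t + 1) : Submodule ℝ E) :=
      Submodule.finrank_mono (inf_le_inf_right _ hVU)
    rw [hU', Finset.sum_range_succ, Finset.sum_range_succ]
    omega

/-! ### The cost as a sum over days -/

/-- Position of contract `n` on day `t` (with a dummy value beyond the last day). -/
def posN {m : ℕ} (P : Fin (m + 2) → Equiv.Perm (Fin (m + 2))) (t : ℕ) (n : Fin (m + 2)) :
    Fin (m + 2) := P n (Fin.ofNat (m + 2) t)

/-- Number of envelopes of day `d`. -/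
def dayCost {m : ℕ} (P : Fin (m + 2) → Equiv.Perm (Fin (m + 2))) (d : ℕ) : ℕ :=
  (Finset.univ.image fun n => (posN P d n, posN P (d + 1) n)).card

lemma cost_eq_sum {m : ℕ} (P : Fin (m + 2) → Equiv.Perm (Fin (m + 2))) :
    cost P = ∑ d ∈ Finset.range (m + 1), dayCost P d := by
  classical
  have hmap : ∀ x ∈ envelopes P, (x.1 : ℕ) ∈ Finset.range (m + 1) := by
    intro x hx
    simp only [envelopes, Finset.mem_filter, Finset.mem_univ, true_and] at hx
    obtain ⟨e, he, -⟩ := hx
    have := e.2
    simp only [Finset.mem_range]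
    omega
  rw [cost, Finset.card_eq_sum_card_fiberwise hmap]
  refine Finset.sum_congr rfl fun d hd => ?_
  rw [Finset.mem_range] at hd
  rw [dayCost]
  refine Finset.card_bij (fun x _ => x.2) ?_ ?_ ?_
  · rintro ⟨a, i, j⟩ hx
    simp only [envelopes, Finset.mem_filter, Finset.mem_univ, true_and] at hx
    obtain ⟨⟨e, he, n, h1, h2⟩, h3⟩ := hx
    simp only [Finset.mem_image, Finset.mem_univ, true_and]
    refine ⟨n, ?_⟩
    have ha : Fin.ofNat (m + 2) d = a := by
      apply Fin.ext
      simp only [Fin.val_ofNat]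
      rw [Nat.mod_eq_of_lt (by omega)]
      exact h3.symm
    have he' : Fin.ofNat (m + 2) (d + 1) = e := by
      apply Fin.ext
      simp only [Fin.val_ofNat]
      rw [Nat.mod_eq_of_lt (by omega)]
      omega
    rw [posN, posN, ha, he', h1, h2]
  · rintro ⟨a, i, j⟩ hx ⟨a', i', j'⟩ hx' hxx
    simp only [Finset.mem_filter] at hx hx'
    have : a = a' := Fin.ext (hx.2.trans hx'.2.symm)
    simp only at hxx
    rw [this, hxx]
  · rintro ⟨i, j⟩ hx
    simp only [Finset.mem_image, Finset.mem_univ, true_and, Prod.mk.injEq] at hx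
    obtain ⟨n, h1, h2⟩ := hx
    refine ⟨(Fin.ofNat (m + 2) d, i, j), ?_, rfl⟩
    simp only [envelopes, Finset.mem_filter, Finset.mem_univ, true_and]
    refine ⟨⟨Fin.ofNat (m + 2) (d + 1), ?_, n, h1, h2⟩, ?_⟩
    · simp only [Fin.val_ofNat]
      rw [Nat.mod_eq_of_lt (by omega), Nat.mod_eq_of_lt (by omega)]
    · simp only [Fin.val_ofNat]
      rw [Nat.mod_eq_of_lt (by omega)]

/-! ### Lower bound -/

lemma posN_last {m : ℕ} {P : Fin (m + 2) → Equiv.Perm (Fin (m + 2))} (hP : IsFast P)
    (n : Fin (m + 2)) : posN P (m + 1) n = n := by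
  apply hP
  simp only [Fin.val_ofNat]
  rw [Nat.mod_eq_of_lt (by omega)]

lemma posN_inj {m : ℕ} (P : Fin (m + 2) → Equiv.Perm (Fin (m + 2))) {s t : ℕ}
    (hs : s < m + 2) (ht : t < m + 2) {n : Fin (m + 2)} (h : posN P s n = posN P t n) :
    s = t := by
  have := (P n).injective h
  have := congrArg Fin.val this
  simp only [Fin.val_ofNat] at this
  rwa [Nat.mod_eq_of_lt hs, Nat.mod_eq_of_lt ht] at this

lemma dayCost_last {m : ℕ} {P : Fin (m + 2) → Equiv.Perm (Fin (m + 2))} (hP : IsFast P) :
    dayCost P m = m + 2 := by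
  rw [dayCost, Finset.card_image_of_injective, Finset.card_univ, Fintype.card_fin]
  intro a b hab
  simp only [Prod.mk.injEq] at hab
  rw [posN_last hP, posN_last hP] at hab
  exact hab.2

lemma two_le_dim {m : ℕ} {P : Fin (m + 2) → Equiv.Perm (Fin (m + 2))} (hP : IsFast P)
    {t : ℕ} (ht : t < m + 1) : 2 ≤ Module.finrank ℝ (fac (posN P t)) := by
  by_cases h : posN P t 0 = posN P t (posN P t 0)
  · exfalso
    have h1 := posN_last hP (posN P t 0)
    have := posN_inj P (by omega) (by omega) (h.symm.trans h1.symm)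
    omega
  · exact two_le_finrank_fac h

lemma sup_eq_top {m : ℕ} {P : Fin (m + 2) → Equiv.Perm (Fin (m + 2))} (hP : IsFast P) :
    (⨆ s ∈ Finset.range (m + 1), fac (posN P s) : Submodule ℝ (Fin (m + 2) → ℝ)) = ⊤ := by
  classical
  set W : Submodule ℝ (Fin (m + 2) → ℝ) := ⨆ s ∈ Finset.range (m + 1), fac (posN P s) with hW
  have hle : ∀ s < m + 1, fac (posN P s) ≤ W := fun s hs => by
    rw [hW]
    exact le_iSup₂_of_le s (Finset.mem_range.2 hs) le_rfl
  have hone : (fun _ => 1 : Fin (m + 2) → ℝ) ∈ W :=
    hle 0 (by omega) (mem_fac.2 ⟨fun _ => 1, rfl⟩)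
  have hind : ∀ j : Fin (m + 2), ∀ s < m + 1,
      (fun n => if posN P s n = j then 1 else 0 : Fin (m + 2) → ℝ) ∈ W := fun j s hs =>
    hle s hs (mem_fac.2 ⟨fun y => if y = j then 1 else 0, rfl⟩)
  have key : ∀ j : Fin (m + 2), (Pi.single j 1 : Fin (m + 2) → ℝ) ∈ W := by
    intro j
    have hsum : (∑ s ∈ Finset.range (m + 1),
        (fun n => if posN P s n = j then 1 else 0 : Fin (m + 2) → ℝ)) ∈ W :=
      Submodule.sum_mem _ fun s hs => hind j s (Finset.mem_range.1 hs)
    have heq : (Pi.single j 1 : Fin (m + 2) → ℝ) = (fun _ => 1 : Fin (m + 2) → ℝ) -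
        ∑ s ∈ Finset.range (m + 1),
          (fun n => if posN P s n = j then 1 else 0 : Fin (m + 2) → ℝ) := by
      funext n
      simp only [Pi.sub_apply, Finset.sum_apply]
      obtain ⟨s, hs⟩ : ∃ s : Fin (m + 2), P n s = j := (P n).surjective j
      have hs' : posN P s n = j := by
        rw [posN]
        have : Fin.ofNat (m + 2) (s : ℕ) = s := by
          apply Fin.ext
          simp only [Fin.val_ofNat]
          exact Nat.mod_eq_of_lt s.2
        rw [this, hs]
      by_cases hnj : n = j
      · subst hnj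
        rw [Pi.single_eq_same, Finset.sum_eq_zero, sub_zero]
        intro t ht
        rw [Finset.mem_range] at ht
        rw [if_neg]
        intro hc
        have h1 := posN_last hP n
        have := posN_inj P (s := t) (t := m + 1) (by omega) (by omega) (hc.trans h1.symm)
        omega
      · rw [Pi.single_eq_of_ne hnj]
        have hslt : (s : ℕ) < m + 1 := by
          rcases Nat.lt_or_ge (s : ℕ) (m + 1) with h | h
          · exact h
          · exfalso
            have hs2 : (s : ℕ) = m + 1 := by
              have := s.2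
              omega
            rw [hs2, posN_last hP] at hs'
            exact hnj hs'
        rw [Finset.sum_eq_single (s : ℕ)]
        · rw [if_pos hs', sub_self]
        · intro t ht hts
          rw [Finset.mem_range] at ht
          rw [if_neg]
          intro hc
          exact hts (posN_inj P (by omega) (by omega) (hc.trans hs'.symm))
        · intro hns
          exact absurd (Finset.mem_range.2 hslt) hns
    rw [heq]
    exact Submodule.sub_mem _ hone hsum
  rw [eq_top_iff]
  intro f _
  have : f = ∑ j : Fin (m + 2), f j • (Pi.single j 1 : Fin (m + 2) → ℝ) := by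
    funext n
    simp [Finset.sum_apply, Pi.single_apply]
  rw [this]
  exact Submodule.sum_mem _ fun j _ => Submodule.smul_mem _ _ (key j)

lemma dim_sup_le {m : ℕ} (P : Fin (m + 2) → Equiv.Perm (Fin (m + 2))) (d : ℕ) :
    Module.finrank ℝ (fac (posN P d) ⊔ fac (posN P (d + 1)) : Submodule ℝ (Fin (m + 2) → ℝ))
      ≤ dayCost P d := by
  classical
  have hle : fac (posN P d) ⊔ fac (posN P (d + 1)) ≤
      fac (fun n => (posN P d n, posN P (d + 1) n)) := by
    apply sup_le
    · intro f hf
      obtain ⟨g, rfl⟩ := mem_fac.1 hf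
      exact mem_fac.2 ⟨fun y => g y.1, rfl⟩
    · intro f hf
      obtain ⟨g, rfl⟩ := mem_fac.1 hf
      exact mem_fac.2 ⟨fun y => g y.2, rfl⟩
  exact (Submodule.finrank_mono hle).trans (finrank_fac_le _)

lemma lower {m : ℕ} {P : Fin (m + 2) → Equiv.Perm (Fin (m + 2))} (hP : IsFast P) :
    4 * (m + 2) - 6 ≤ cost P := by
  have htel := telescope (fun s => fac (posN P s)) m
  rw [sup_eq_top hP, finrank_top, Module.finrank_fintype_fun_eq_card, Fintype.card_fin] at htel
  have hsum : ∑ d ∈ Finset.range m, Module.finrank ℝ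
      (fac (posN P d) ⊔ fac (posN P (d + 1)) : Submodule ℝ (Fin (m + 2) → ℝ))
      ≤ ∑ d ∈ Finset.range m, dayCost P d :=
    Finset.sum_le_sum fun d _ => dim_sup_le P d
  rw [cost_eq_sum, Finset.sum_range_succ, dayCost_last hP]
  rcases m with _ | k
  · simp
  · rw [Finset.sum_range_succ' (fun d => Module.finrank ℝ (fac (posN P d)))] at htel
    have h2 : ∑ d ∈ Finset.range k, 2 ≤
        ∑ d ∈ Finset.range k, Module.finrank ℝ (fac (posN P (d + 1))) := by
      refine Finset.sum_le_sum fun d hd => ?_
      rw [Finset.mem_range] at hd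
      exact two_le_dim hP (by omega)
    rw [Finset.sum_const, Finset.card_range, smul_eq_mul] at h2
    omega

/-! ### Upper bound: the star protocol -/

/-- The star protocol: `P n d = swap 0 n (d + 1)`. -/
def star (m : ℕ) (n : Fin (m + 2)) : Equiv.Perm (Fin (m + 2)) :=
  (finRotate (m + 2)).trans (Equiv.swap 0 n)

lemma star_apply {m : ℕ} (n d : Fin (m + 2)) : star m n d = Equiv.swap 0 n (d + 1) := by
  simp [star]

lemma star_fast (m : ℕ) : IsFast (star m) := by
  intro n d hd
  rw [star_apply]
  have : d + 1 = 0 := by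
    have : d = Fin.last (m + 1) := Fin.ext (by simp; omega)
    rw [this]
    simp
  rw [this, Equiv.swap_apply_left]

lemma star_dayCost {m d : ℕ} (hd : d < m) : dayCost (star m) d ≤ 3 := by
  classical
  set a : Fin (m + 2) := Fin.ofNat (m + 2) d + 1 with ha
  set b : Fin (m + 2) := Fin.ofNat (m + 2) (d + 1) + 1 with hb
  have hav : (a : ℕ) = d + 1 := by
    rw [ha, Fin.val_add, Fin.val_ofNat, Nat.mod_eq_of_lt (by omega : d < m + 2)]
    simp only [Fin.val_one]
    exact Nat.mod_eq_of_lt (by omega)
  have hbv : (b : ℕ) = d + 2 := by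
    rw [hb, Fin.val_add, Fin.val_ofNat, Nat.mod_eq_of_lt (by omega : d + 1 < m + 2)]
    simp only [Fin.val_one]
    exact Nat.mod_eq_of_lt (by omega)
  have ha0 : a ≠ 0 := by
    intro h
    rw [h] at hav
    simp at hav
  have hb0 : b ≠ 0 := by
    intro h
    rw [h] at hbv
    simp at hbv
  have hsub : (Finset.univ.image fun n => (posN (star m) d n, posN (star m) (d + 1) n)) ⊆
      {((0 : Fin (m + 2)), b), (a, 0), (a, b)} := by
    intro x hx
    simp only [Finset.mem_image, Finset.mem_univ, true_and] at hx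
    obtain ⟨n, rfl⟩ := hx
    simp only [posN, star_apply, ← ha, ← hb]
    simp only [Finset.mem_insert, Finset.mem_singleton, Prod.mk.injEq]
    by_cases h1 : n = a
    · left
      subst h1
      refine ⟨Equiv.swap_apply_right _ _, Equiv.swap_apply_of_ne_of_ne hb0 ?_⟩
      intro h
      have := congrArg Fin.val h
      omega
    · right
      by_cases h2 : n = b
      · left
        subst h2
        exact ⟨Equiv.swap_apply_of_ne_of_ne ha0 (Ne.symm h1), Equiv.swap_apply_right _ _⟩
      · right
        exact ⟨Equiv.swap_apply_of_ne_of_ne ha0 (Ne.symm h1),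
          Equiv.swap_apply_of_ne_of_ne hb0 (Ne.symm h2)⟩
  calc dayCost (star m) d ≤ _ := Finset.card_le_card hsub
    _ ≤ 3 := Finset.card_le_three

lemma star_cost (m : ℕ) : cost (star m) ≤ 4 * (m + 2) - 6 := by
  rw [cost_eq_sum, Finset.sum_range_succ, dayCost_last (star_fast m)]
  have : ∑ d ∈ Finset.range m, dayCost (star m) d ≤ ∑ d ∈ Finset.range m, 3 :=
    Finset.sum_le_sum fun d hd => star_dayCost (Finset.mem_range.1 hd)
  rw [Finset.sum_const, Finset.card_range, smul_eq_mul] at this
  omega

/-- `CFP(N) = 4N - 6` for every `N ≥ 2`: the least cost of a fast protocol for `N` parties is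
`4N - 6`. -/
theorem result (N : ℕ) (hN : 2 ≤ N) :
    IsLeast {c : ℕ | ∃ P : Fin N → Equiv.Perm (Fin N), IsFast P ∧ cost P = c} (4 * N - 6) := by
  obtain ⟨m, rfl⟩ : ∃ m, N = m + 2 := ⟨N - 2, by omega⟩
  constructor
  · exact ⟨star m, star_fast m, le_antisymm (star_cost m) (lower (star_fast m))⟩
  · rintro c ⟨P, hP, rfl⟩
    exact lower hP

end Pool.Agent.Results.MP_6fb3b3_lc.CFPValue
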